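import Pool.Agent.helper48.EXI.Spec2

set_option autoImplicit false

namespace EXI

open scoped Classical
open AN
open Pool.Agent.helper53.AU

noncomputable section

theorem KHY (hKH1 : KH1_stmt) (hKH2 : KH2_stmt) (hKH3 : KH3_stmt) (hDJ0 : DJ0_stmt) : KHY_stmt := by
  intro L _ h2 g t y hy ht
  obtain ⟨γ, a, hinj, hpos, ha0, hcoef, hAA⟩ := hKH1 L g t y hy
  obtain ⟨hmul, hres⟩ := hKH2 L h2 g t y hy
  have hmem : ∀ r : ℕ, ¬ Gp γ r → a r ∈ VV y := fun r hr => by
    rw [← hAA]
    exact Submodule.subset_span ⟨r, hr, rfl⟩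
  refine ⟨γ, a, ⟨hinj, hpos, ha0, hcoef, ?_, ?_, ?_⟩, hAA⟩
  · intro r r' hr hr'
    rw [hAA]
    exact hmul _ (hmem r hr) _ (hmem r' hr')
  · intro r r' hr hr'
    exact hres _ (hmem r hr) _ (hmem r' hr')
  · intro n hn
    have h0 : ∀ v ∈ VV y, res (v * om γ a n) = 0 := by
      intro v hv
      rw [← hAA] at hv
      have hv' : v ∈ Submodule.span L {x | ∃ r, ¬ Gp γ r ∧ x = a r} := hv
      refine Submodule.span_induction (p := fun v _ => res (v * om γ a n) = 0) ?_ ?_ ?_ ?_ hv'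
      · rintro x ⟨r, hr, rfl⟩
        exact (hDJ0 L g γ a hinj hpos ha0 hcoef).1 n hn r hr
      · show res (0 * om γ a n) = 0
        rw [zero_mul, res_zero]
      · intro x z _ _ hx hz
        show res ((x + z) * om γ a n) = 0
        rw [add_mul, res_add, hx, hz, add_zero]
      · intro c x _ hx
        show res ((c • x) * om γ a n) = 0
        rw [smul_mul_assoc, res_smul, hx, mul_zero]
    have h1 := hKH3 L h2 g t y hy ht (om γ a n) h0
    show om γ a n ∈ Submodule.span L {x | ∃ f ∈ AA γ a, ∃ h ∈ AA γ a, x = f * dd h}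
    rw [hAA]
    exact h1

end

end EXI
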